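import Pool.Agent.MP_552068_nt.Fin2
import Pool.Agent.MP_552068_nt.CAR
import Pool.Agent.MP_552068_nt.LUC
import Pool.Agent.MP_552068_nt.HID
import Pool.Agent.MP_552068_nt.BIN
import Pool.Agent.MP_552068_nt.RAT
import Pool.Agent.MP_552068_nt.REF
import Pool.Agent.MP_552068_nt.ROW
import Pool.Agent.MP_552068_nt.REC
import Pool.Agent.MP_552068_nt.INV
import Pool.Agent.MP_552068_nt.NDG
import Pool.Agent.MP_552068_nt.QFG
import Pool.Agent.MP_552068_nt.CLA
import Pool.Agent.MP_552068_nt.LAN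
import Pool.Agent.MP_552068_nt.SS
import Pool.Agent.MP_552068_nt.BLK
import Pool.Agent.MP_552068_nt.JAC
import Pool.Agent.MP_552068_nt.HID2
import Pool.Agent.MP_552068_nt.PHI
import Pool.Agent.MP_552068_nt.INV2
import Pool.Agent.MP_552068_nt.LUC3
import Pool.Agent.MP_552068_nt.TOP
import Pool.Agent.MP_552068_nt.ROW2
import Pool.Agent.MP_552068_nt.HF
import Pool.Agent.MP_552068_nt.CAR3
import Pool.Agent.MP_552068_nt.MOM
import Pool.Agent.MP_552068_nt.OMG
import Pool.Agent.MP_552068_nt.LOW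
import Pool.Agent.MP_552068_nt.REF0
import Pool.Agent.MP_552068_nt.REC2
import Pool.Agent.MP_552068_nt.LUM
import Pool.Agent.MP_552068_nt.TK0

/-! A two-term congruence modulo the cube of an inert prime for the alternating sums. -/

namespace Pool.Agent.Results.MP_552068_nt.SquareStep

open Pool.Agent.MP_552068_nt

theorem result (p n : ℕ) (hp : p.Prime) (h7 : p % 7 = 3 ∨ p % 7 = 5 ∨ p % 7 = 6) :
    (p : ℤ) ^ 3 ∣
      (∑ k ∈ Finset.range (p ^ 2 * n), (-1 : ℤ) ^ k * ∑ j ∈ Finset.range (k + 1),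
        (-16 : ℤ) ^ j * (k.choose j : ℤ) ^ 2 * ((k - j).choose j : ℤ) ^ 2) -
      (p : ℤ) ^ 2 * ∑ k ∈ Finset.range n, (-1 : ℤ) ^ k * ∑ j ∈ Finset.range (k + 1),
        (-16 : ℤ) ^ j * (k.choose j : ℤ) ^ 2 * ((k - j).choose j : ℤ) ^ 2 :=
  last2 (blk car luc rat (row hid bin ref)) (qfg recS inv ndg) (ss cla lan) (phi luc3 car3)
    (low (lum car)) (top (lum car)) (tk0 rat) (row2 hid bin ref0 (hid2 jac)) (omg (mom hid bin))
    (hf rec2 inv2) p n hp h7

end Pool.Agent.Results.MP_552068_nt.SquareStep
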